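import Pool.Agent.N137.DR.Generic

/-!
# Dynamical Mordell-Lang for endomorphisms of `P^N` with a power map at infinity at points whose
closure over the field of definition meets the hyperplane at infinity

Definitions (in `Pool.Agent.W600.DM`):
* `sys d a Q`: the system `(a_0 X_0^d, a_1 X_1^d + X_0 Q_1, ..., a_N X_N^d + X_0 Q_N)`, where the
  `Q_i` are forms of degree `d - 1` in `X_0, ..., X_N`; for nonzero `a_j` these are the
  endomorphisms of `P^N` of degree `d` for which the hyperplane `X_0 = 0` is totally invariant and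
  which are given by `[a_1 X_1^d : ... : a_N X_N^d]` on this hyperplane;
* `DMLAt F α`: for every set `V` of complex polynomials the set of the `n` such that the `n`-th
  iterate of `α` under `F` is a common zero of `V` is a finite union of arithmetic progressions
  `{a + b k : k ≥ 0}` (`b = 0` allowed).

The proof works at a place of residue characteristic `0`. In Böttcher coordinates the coordinates
of the `n`-th iterate are `c_n^(-1) (a point)^(d^n)`, and a polynomial in the coordinates of the
`n`-th iterate is a series in monomials of these; the monomials of the same size are collected, the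
coefficients of such a group (power series over the residue field) are, coefficient by coefficient,
sums `∑ c (unit)^(d^n)`, for which the set of zeros is controlled by `p`-adic interpolation over the
residue field; so on a residue class of `n` modulo a fixed `M` the first group which does not vanish
identically has bounded order, and dominates the later groups.
-/

set_option autoImplicit false

open MvPolynomial Pool.Agent.W600.DM

namespace Pool.Agent.Results.MP_b15c9e_ag.PowerMapTranscendentalPoints

/-- **Dynamical Mordell-Lang for perturbed power maps of `P^N` at dominated points for places of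
residue characteristic `0`.**
(1) Let `L` be a field with an embedding `σ : L → ℂ` and a nonarchimedean absolute value `v` with
`v(n) = 1` for all integers `n ≠ 0`, `d ≥ 2`, `F_j = a_j X_j^d + P_j` (`j < m`) with `a_j ≠ 0` in
`L` and polynomials `P_j` over `L`, and let `α` be a point with nonzero coordinates in `L`, such
that for every monomial `c X^β` of `P_j` (for all `j`) `v(c α^β) < v(a_j α_j^d)` and
`∏_i v(a_i α_i^(d-1))^(β_i) < v(a_j α_j^(d-1))^d`. Then `DMLAt F α`.
(2) Let `k` be a subfield of `ℂ`, `N ≥ 1`, `d ≥ 2`, `a_0, ..., a_N ∈ k` nonzero and `Q_1, ..., Q_N`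
ARBITRARY forms of degree `d - 1` over `k`, so that
`F = (a_0 X_0^d, a_1 X_1^d + X_0 Q_1, ..., a_N X_N^d + X_0 Q_N)` is an endomorphism of `P^N` over
`k` (it has no common zero but `0`). Let `x ∈ ℂ^N` be a point such that the Zariski closure over `k`
of `[1 : x]` in `P^N` contains a point `[0 : P_1 : ... : P_N]` with all `P_i ≠ 0`. Then
`DMLAt F (1, x)`. -/
theorem result :
    (∀ (L : Type) [Field L] (σ : L →+* ℂ) (v : AbsoluteValue L ℝ), IsNonarchimedean v →
      (∀ n : ℕ, n ≠ 0 → v n = 1) →
      ∀ m d : ℕ, 2 ≤ d → ∀ (a : Fin m → L) (P : Fin m → MvPolynomial (Fin m) L) (α : Fin m → L),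
        (∀ j, a j ≠ 0) → (∀ j, α j ≠ 0) →
        (∀ j, ∀ β ∈ (P j).support,
          v (coeff β (P j)) * ∏ i, v (α i) ^ (β i) < v (a j) * v (α j) ^ d) →
        (∀ j, ∀ β ∈ (P j).support,
          ∏ i, (v (a i) * v (α i) ^ (d - 1)) ^ (β i) < (v (a j) * v (α j) ^ (d - 1)) ^ d) →
        DMLAt (fun j => map σ (C (a j) * X j ^ d + P j)) (fun j => σ (α j))) ∧
    (∀ (k : Subfield ℂ) (N d : ℕ), 1 ≤ N → 2 ≤ d → ∀ (a : Fin (N + 1) → k)
      (Q : Fin N → MvPolynomial (Fin (N + 1)) k), (∀ j, a j ≠ 0) →
      (∀ i, (Q i).IsHomogeneous (d - 1)) →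
      (∀ z : Fin (N + 1) → ℂ, (∀ j, eval z (map (algebraMap k ℂ) (sys d a Q j)) = 0) → z = 0) ∧
      ∀ x P : Fin N → ℂ, (∀ i, P i ≠ 0) →
        (∀ (e : ℕ) (G : MvPolynomial (Fin (N + 1)) k), G.IsHomogeneous e →
          aeval (Fin.cons 1 x : Fin (N + 1) → ℂ) G = 0 →
          aeval (Fin.cons 0 P : Fin (N + 1) → ℂ) G = 0) →
        DMLAt (fun j => map (algebraMap k ℂ) (sys d a Q j))
          (Fin.cons 1 x : Fin (N + 1) → ℂ)) := by
  refine ⟨fun L _ σ v hv hn m d hd a P α ha hα c1 c2 =>
    Pool.Agent.N137.DR.dmlAt hd v hv hn σ a ha P α hα c1 c2,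
    fun k N d hN hd a Q ha hQ => ⟨fun z hz => ?_, fun x P hP h =>
      Pool.Agent.N137.DR.generic hN hd a ha Q hQ x P hP h⟩⟩
  have hd0 : d ≠ 0 := by omega
  have h0 : z 0 = 0 := by
    have h1 := hz 0
    simp only [sys, Fin.cons_zero, map_mul, map_pow, map_C, map_X, eval_C, eval_X] at h1
    rcases mul_eq_zero.mp h1 with h2 | h2
    · exact absurd h2 ((map_ne_zero _).2 (ha 0))
    · exact pow_eq_zero_iff hd0 |>.mp h2
  funext j
  refine Fin.cases ?_ (fun i => ?_) j
  · exact h0
  · have h1 := hz i.succ
    simp only [sys, Fin.cons_succ, map_add, map_mul, map_pow, map_C, map_X, eval_C, eval_X, h0,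
      zero_mul, add_zero] at h1
    rcases mul_eq_zero.mp h1 with h2 | h2
    · exact absurd h2 ((map_ne_zero _).2 (ha i.succ))
    · exact pow_eq_zero_iff hd0 |>.mp h2

end Pool.Agent.Results.MP_b15c9e_ag.PowerMapTranscendentalPoints
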