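import Pool.Agent.N407.RO.Quad
import Pool.Agent.N84.TS.Word
import Pool.Agent.N24.RW.All

set_option autoImplicit false

/-!
# Dynamical Mordell-Lang for symmetric powers of compositions along random orbits of thin groups

Let `s_0, ..., s_m` be integral matrices of determinant one and of size `6 k` which generate
`SL_(6k)(ℤ/q)` for all `q` prime to some `q₀` (by strong approximation this holds whenever they
generate a Zariski dense subgroup of `SL_(6k)`, also if the index is infinite), let `v ≠ 0` be an
integral vector and let `c_n = s_(w(n-1)) ... s_(w 0) v` for independent random indices. The `6 k`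
coordinates of `c_n` are the coefficients of `k` quadratic rational functions `f_1, ..., f_k`.

**Theorem.** Almost surely the following holds for all `n` outside a set of density zero: for ALL
`N ≥ 1` and ALL compositions `f_w = f_(w_1) ∘ ... ∘ f_(w_m)`, the symmetric power
`Sym^N f_w : ℙ^N → ℙ^N` is an endomorphism of degree `2 ^ m` with the full Dynamical Mordell-Lang
property (all complex points, all closed subvarieties over `ℂ`). Moreover the closure of the set of
all exceptional integral vectors of coefficients in the product of the `ℤ_p^(6k)`, `p` not dividing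
`M`, has Haar measure zero, for every `M`.

Proof. For a positive proportion of the residues modulo a large prime `p` all critical points of all
the `f_j` are rational and outside the images of the rational points (starting library TH838), and one
such prime suffices (helper84). The random orbit modulo `q` is equidistributed in an orbit of
`SL_(6k)(ℤ/q)`, which contains at least half of all vectors (engine of helper24).
-/

namespace Pool.Agent.Results.MP_b15c9e_ag.RandomSymmetricPowers

open MvPolynomial Filter Topology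
open Pool.Agent.N24.RW (Walk orb words ProNull)
open Pool.Agent.Results.MP_b15c9e_ag.SymmetricPowers (symPoint IsEndo DML ratMap)

/-- The composition `f_w = f_(w_1) ∘ ... ∘ f_(w_m)` in homogeneous coordinates, where
`f_i = ratMap (v (i, ·))` is the quadratic rational function
`(y₀ : y₁) ↦ (∑ v_{i,0,e} y₀^e y₁^(2-e) : ∑ v_{i,1,e} y₀^e y₁^(2-e))`. -/
noncomputable def comp {k : ℕ} (v : Fin k × Fin 2 × Fin 3 → ℤ) (w : List (Fin k)) :
    (Fin 2 → ℂ) → Fin 2 → ℂ :=
  w.foldr (fun i g => ratMap (fun q => v (i, q)) ∘ g) id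

/-- `Φ` is the `N`-th symmetric power `{P_1, ..., P_N} ↦ {g(P_1), ..., g(P_N)}` of the self-map `g` of
`ℙ^1`; the coordinates `symPoint x` of `{P_1, ..., P_N}` are the coefficients of
`∏ (x_{i,0} + x_{i,1} T)`. -/
def IsSymPower {N : ℕ} (g : (Fin 2 → ℂ) → Fin 2 → ℂ)
    (Φ : Fin (N + 1) → MvPolynomial (Fin (N + 1)) ℂ) : Prop :=
  ∀ x : Fin N → Fin 2 → ℂ, (fun j => eval (symPoint x) (Φ j)) = symPoint fun i => g (x i)

/-- All symmetric powers of all compositions of the `k` quadratic rational functions with the
coefficients `v` are endomorphisms (of degree `2 ^ m` for compositions of length `m ≥ 1`) with the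
Dynamical Mordell-Lang property for all complex points and all closed subvarieties. -/
def AllDML (k : ℕ) (v : Fin k × Fin 2 × Fin 3 → ℤ) : Prop :=
  ∀ w : List (Fin k), w ≠ [] → ∀ N : ℕ, 1 ≤ N →
    ∃ Φ : Fin (N + 1) → MvPolynomial (Fin (N + 1)) ℂ,
      IsEndo (2 ^ w.length) Φ ∧ IsSymPower (comp v w) Φ ∧ DML Φ

theorem comp_eq {k : ℕ} (v : Fin k × Fin 2 × Fin 3 → ℤ) (w : List (Fin k)) :
    comp v w = Pool.Agent.N84.TS.word v w := by
  induction w with
  | nil => rfl
  | cons i w ih =>
    have h : comp v (i :: w) = ratMap (fun q => v (i, q)) ∘ comp v w := rfl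
    rw [h, ih]
    rfl

theorem allDML_of_good {k : ℕ} (v : Fin k × Fin 2 × Fin 3 → ℤ) (hv : Pool.Agent.N84.TS.GoodQ k v) :
    AllDML k v := by
  intro w hw N hN
  obtain ⟨Φ, g1, g2⟩ := Pool.Agent.N84.TS.exists_phi _ hv N hN w
  refine ⟨Φ, g1, ?_, Pool.Agent.N84.TS.dml_word hN _ hv w hw Φ g2⟩
  rw [comp_eq]
  exact g2

theorem result (k : ℕ) (hk : 1 ≤ k) :
    ProNull {c : Fin k × Fin 2 × Fin 3 → ℤ | ¬ AllDML k c} ∧
      ∀ (W : Walk (Fin k × Fin 2 × Fin 3)) (v : Fin k × Fin 2 × Fin 3 → ℤ), v ≠ 0 →
        ∀ᵐ w ∂(words W.m),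
          Tendsto (fun N : ℕ =>
            (({n : ℕ | n < N ∧ ¬ AllDML k (orb W v w n)}.ncard : ℕ) : ℝ) / (N : ℝ)) atTop (𝓝 0) := by
  have h0 := Pool.Agent.N407.RO.proNull_goodQ Pool.Agent.N24.RW.crit Pool.Agent.N24.RW.clo k hk
  have h1 : ProNull {c : Fin k × Fin 2 × Fin 3 → ℤ | ¬ AllDML k c} := by
    refine (Pool.Agent.N24.RW.clo (Fin k × Fin 2 × Fin 3)).1 _ _ ?_ h0
    intro c hc hg
    exact hc (allDML_of_good c hg)
  refine ⟨h1, fun W v hv => ?_⟩
  have hcard : 2 ≤ Fintype.card (Fin k × Fin 2 × Fin 3) := by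
    rw [Fintype.card_prod, Fintype.card_prod, Fintype.card_fin, Fintype.card_fin,
      Fintype.card_fin]
    omega
  have h2 := Pool.Agent.N24.RW.main (Fin k × Fin 2 × Fin 3) hcard W v hv _ h1
  unfold Pool.Agent.N24.RW.AlmostNever at h2
  exact h2

end Pool.Agent.Results.MP_b15c9e_ag.RandomSymmetricPowers
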