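import Pool.Agent.N137.SH.Fin

/-!
# Dynamical Mordell-Lang for self-maps of `P^N` with a superattracting hypersurface at points whose
closure over the field of definition contains a preperiodic point of this hypersurface

Let `k` be an algebraically closed subfield of `ℂ`, for example the field of algebraic numbers, and
`m = N + 1`. The rational self-maps of `P^N` over `k` are given by systems `F = (F_0, ..., F_N)` of
forms of the same degree `d` over `k`. A form `L` with `L(F) = L^D h`, `D ≥ 2`, defines a
hypersurface `H` which is invariant and along which the map is ramified (the pull-back of `H` is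
`D H + (h = 0)`); for endomorphisms of `P^N` such hypersurfaces are superattracting. For instance
`H` is the hyperplane at infinity, `L = X_0`, `F_0 = X_0^d`, for polynomial endomorphisms of the
affine space which extend to `P^N`.

The proof works at a place `v` of a field of algebraic functions over `k` at which the point `α`
reduces to the preperiodic point `P`. The differential at `P` has the eigenvalue `0` transversally
to `H` and is invertible along `H`. The map is put into a normal form: the coordinates of the
iterates are expanded in the monomials in the `λ_i^n` (`λ_i` the nonzero eigenvalues) and the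
powers `t^(a D^n)`, where `t` is a Böttcher coordinate transversal to `H`; a polynomial
in the coordinates of the iterates is a sum of terms of the sizes `|t|^(a D^n)`, whose coefficients
are exponential sums in `n` over `k` up to smaller terms, to which the Skolem-Mahler-Lech method
applies coefficient by coefficient, so that the first nonvanishing coefficient dominates.
-/

set_option autoImplicit false

open MvPolynomial

namespace Pool.Agent.Results.MP_b15c9e_ag.SuperattractingHypersurface

/-- the self-map of `R^m` given by the system `F` of polynomials -/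
noncomputable def sm {R : Type} [CommSemiring R] {m : ℕ} (F : Fin m → MvPolynomial (Fin m) R)
    (p : Fin m → R) : Fin m → R := fun i => eval p (F i)

/-- the differential of the polynomial `G` at the point `p`, in the direction `v` -/
noncomputable def df {k : Type} [Field k] {m : ℕ} (G : MvPolynomial (Fin m) k)
    (p v : Fin m → k) : k := ∑ j, eval p (pderiv j G) * v j

/-- **Dynamical Mordell-Lang along a superattracting hypersurface.** Let `k ⊆ ℂ` be an
algebraically closed field, `F = (F_i)_{i < m}` forms of degree `d ≥ 2` over `k`, `L` and `h` forms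
over `k` with `L(F) = L^D h` for some `D ≥ 2`. Let `P ∈ k^m` be a point such that `F^n(P) ≠ 0` for
all `n`, which is preperiodic in projective space, `F^(n₀ + M)(P) = c F^(n₀)(P)` with `M ≥ 1`, and
such that for the points `p = F^n(P)`, `n ≥ n₀`, of its cycle: `L(p) = 0`, `h(p) ≠ 0`, and the
differential of `F` at `p` is injective on the kernel of the differential of `L` at `p` (so the
map is not ramified at `p` in the directions tangent to the hypersurface `L = 0`).
Let `α ∈ ℂ^m` be a point whose Zariski closure over `k` in projective space contains `P` (every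
form over `k` which vanishes at `α` vanishes at `P`). Then `F^n(α) ≠ 0` for all `n`, and for every
set `V` of complex forms the set of the `n` such that `F^n(α)` is a common zero of `V` is a finite
union of arithmetic progressions `{a + b j : j ≥ 0}` (`b = 0` allowed). -/
theorem result (k : Subfield ℂ) [IsAlgClosed k] (m d e g D : ℕ) (hd : 2 ≤ d) (hD : 2 ≤ D)
    (F : Fin m → MvPolynomial (Fin m) k) (hF : ∀ i, (F i).IsHomogeneous d)
    (L h : MvPolynomial (Fin m) k) (hLe : L.IsHomogeneous e) (hhg : h.IsHomogeneous g)
    (hL : bind₁ F L = L ^ D * h)
    (P : Fin m → k) (hP : ∀ n, (sm F)^[n] P ≠ 0)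
    (n₀ M : ℕ) (hM : 1 ≤ M) (c : k) (hper : (sm F)^[n₀ + M] P = c • (sm F)^[n₀] P)
    (hLP : ∀ n ≥ n₀, eval ((sm F)^[n] P) L = 0) (hhP : ∀ n ≥ n₀, eval ((sm F)^[n] P) h ≠ 0)
    (hinj : ∀ n ≥ n₀, ∀ v : Fin m → k, (∀ i, df (F i) ((sm F)^[n] P) v = 0) →
      df L ((sm F)^[n] P) v = 0 → v = 0)
    (α : Fin m → ℂ)
    (hα : ∀ (e' : ℕ) (G : MvPolynomial (Fin m) k), G.IsHomogeneous e' → aeval α G = 0 →
      eval P G = 0) :
    (∀ n, (sm fun i => map (algebraMap k ℂ) (F i))^[n] α ≠ 0) ∧
    ∀ V : Set (MvPolynomial (Fin m) ℂ), (∀ G ∈ V, ∃ e' : ℕ, G.IsHomogeneous e') →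
      ∃ T : Finset (ℕ × ℕ),
        {n : ℕ | ∀ G ∈ V, eval ((sm fun i => map (algebraMap k ℂ) (F i))^[n] α) G = 0} =
          {n : ℕ | ∃ t ∈ T, ∃ j : ℕ, n = t.1 + t.2 * j} :=
  Pool.Agent.N137.SH.main2 hd hD F hF L h hLe hhg hL P hP n₀ M hM c hper hLP hhP
    (fun n hn v h1 h2 => hinj n hn v (fun i => congrFun h1 i) h2) α hα

end Pool.Agent.Results.MP_b15c9e_ag.SuperattractingHypersurface
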