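import Pool.Agent.N84.TS.Word

set_option autoImplicit false

/-!
# Dynamical Mordell-Lang for symmetric powers of compositions along thin sequences of parameters

Let `P_0, P_1, P_2, ...` be an infinite sequence of generalised polynomials `P(t) = ∑ a_x t ^ x`
(finitely many real exponents, real coefficients, depending on `l`) with distinct leading exponents
which are positive and not integers and have positive coefficients; for example
`P_l(t) = t ^ (l + √2)`, or `P_l(t) = t ^ (1 / (l + 2))`.

**Theorem.** There is ONE set `E` of integers, containing only the proportion `(log N) ^ (-A)` of the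
integers and of the PRIMES in `(N, 2 N]` for every `A`, such that for all `k` and all `k`-tuples
`f_1, ..., f_k` of quadratic rational functions whose `6 k` coefficients are the integers `⌊P_l(t)⌋` for
distinct `l`: for all but finitely many `t` outside `E`, for ALL `N ≥ 1` and ALL functions
`f_w = f_(w_1) ∘ ... ∘ f_(w_m)` in the semigroup generated by `f_1, ..., f_k`, the symmetric power
`Sym^N f_w : ℙ^N → ℙ^N` is an endomorphism of degree `2 ^ m` with the full Dynamical Mordell-Lang
property (all complex points, all closed subvarieties over `ℂ`).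

The starting result `SymmetricPowers` is about one quadratic function `f_v` (`k = m = 1`) and 100
percent of the vectors `v` in large boxes. Here only one parameter `t` runs (through integers, or
primes), compositions of any length of any number of functions are allowed (so the degree `2 ^ m` of
the endomorphism is arbitrarily large), and one exceptional set works for all of them.

Proof. The vectors of the `⌊P_l(t)⌋` are equidistributed modulo all `q ≤ N ^ κ` (exponential sums of
the starting library, engine of helper666). For a positive proportion of the residues modulo a large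
prime `p` all critical points of all the `f_j` are rational and outside the images of the rational
points (starting library TH838). The block sieve shows that all but the proportion `N ^ (-δ)` of
the `t` have such a prime `p ≤ (log N) ^ 4`; a diagonal argument gives one set `E`. The orbits of
`Sym^N f_w` are images of every `m`-th point of orbits of the map
`(P_(i,j)) ↦ (f_(w_j) (P_(i,j+1)))` of `(ℙ^1)^(N m)`, which is good at the same prime `p`.
-/

namespace Pool.Agent.Results.MP_b15c9e_ag.ThinSymmetricPowers

open MvPolynomial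
open Pool.Agent.Results.MP_b15c9e_ag.SymmetricPowers (symPoint IsEndo DML ratMap)

/-- `e` is the largest exponent of the generalised polynomial `∑ a_x t ^ x`; it is positive and not an
integer and has a positive coefficient. -/
def Admissible (F : Finset ℝ) (a : ℝ → ℝ) (e : ℝ) : Prop :=
  e ∈ F ∧ (∀ x ∈ F, x ≤ e) ∧ 0 < e ∧ (∀ m : ℕ, e ≠ m) ∧ 0 < a e

/-- The integer part of the value at `t` of the generalised polynomial `P_l`. -/
noncomputable def value (F : ℕ → Finset ℝ) (a : ℕ → ℝ → ℝ) (l t : ℕ) : ℤ :=
  ⌊∑ x ∈ F l, a l x * (t : ℝ) ^ x⌋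

/-- `E` contains at most the proportion `(log N) ^ (-A)` of the set `S N`, `N ≥ N₀(A)`, for every
`A`. -/
def VeryThin (S : ℕ → Finset ℕ) (E : Set ℕ) : Prop :=
  ∀ A : ℕ, ∃ N₀ : ℕ, ∀ N : ℕ, N₀ ≤ N →
    ({t : ℕ | t ∈ S N ∧ t ∈ E}.ncard : ℝ) * Real.log N ^ A ≤ (S N).card

/-- The composition `f_w = f_(w_1) ∘ ... ∘ f_(w_m)` in homogeneous coordinates, where
`f_i = ratMap (v (i, ·))` is the quadratic rational function
`(y₀ : y₁) ↦ (∑ v_{i,0,e} y₀^e y₁^(2-e) : ∑ v_{i,1,e} y₀^e y₁^(2-e))`. -/
noncomputable def comp {k : ℕ} (v : Fin k × Fin 2 × Fin 3 → ℤ) (w : List (Fin k)) :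
    (Fin 2 → ℂ) → Fin 2 → ℂ :=
  w.foldr (fun i g => ratMap (fun q => v (i, q)) ∘ g) id

/-- `Φ` is the `N`-th symmetric power `{P_1, ..., P_N} ↦ {g(P_1), ..., g(P_N)}` of the self-map `g` of
`ℙ^1`; the coordinates `symPoint x` of `{P_1, ..., P_N}` are the coefficients of
`∏ (x_{i,0} + x_{i,1} T)`. -/
def IsSymPower {N : ℕ} (g : (Fin 2 → ℂ) → Fin 2 → ℂ)
    (Φ : Fin (N + 1) → MvPolynomial (Fin (N + 1)) ℂ) : Prop :=
  ∀ x : Fin N → Fin 2 → ℂ, (fun j => eval (symPoint x) (Φ j)) = symPoint fun i => g (x i)

theorem comp_eq {k : ℕ} (v : Fin k × Fin 2 × Fin 3 → ℤ) (w : List (Fin k)) :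
    comp v w = Pool.Agent.N84.TS.word v w := by
  induction w with
  | nil => rfl
  | cons i w ih =>
    have h : comp v (i :: w) = ratMap (fun q => v (i, q)) ∘ comp v w := rfl
    rw [h, ih]
    rfl

theorem result (F : ℕ → Finset ℝ) (a : ℕ → ℝ → ℝ) (e : ℕ → ℝ)
    (h : ∀ l, Admissible (F l) (a l) (e l)) (he : Function.Injective e) :
    ∃ E : Set ℕ, VeryThin (fun N => Finset.Ioc N (2 * N)) E ∧
      VeryThin (fun N => (Finset.Ioc N (2 * N)).filter Nat.Prime) E ∧
      ∀ k : ℕ, 1 ≤ k → ∀ l : Fin k × Fin 2 × Fin 3 → ℕ, Function.Injective l →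
        {t : ℕ | t ∉ E ∧ ¬ ∀ w : List (Fin k), w ≠ [] → ∀ N : ℕ, 1 ≤ N →
          ∃ Φ : Fin (N + 1) → MvPolynomial (Fin (N + 1)) ℂ,
            IsEndo (2 ^ w.length) Φ ∧ IsSymPower (comp (fun q => value F a (l q) t) w) Φ ∧
              DML Φ}.Finite := by
  obtain ⟨E, h1, h2, h3⟩ := Pool.Agent.N84.TS.one_set h he
  refine ⟨E, h1, h2, fun k hk l hl => (h3 k hk l hl).subset ?_⟩
  rintro t ⟨ht, ht'⟩
  refine ⟨ht, fun hg => ht' fun w hw N hN => ?_⟩
  obtain ⟨Φ, g1, g2⟩ := Pool.Agent.N84.TS.exists_phi _ hg N hN w
  refine ⟨Φ, g1, ?_, Pool.Agent.N84.TS.dml_word hN _ hg w hw Φ g2⟩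
  rw [comp_eq]
  exact g2

end Pool.Agent.Results.MP_b15c9e_ag.ThinSymmetricPowers
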